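import Pool.Agent.N657.QR.Stm

/-! # QR/RPV: reflection positivity for a reflection of the sites -/

set_option autoImplicit false
set_option linter.unusedSectionVars false

namespace Pool.Agent.N8.QRRPV

open Pool.Agent.N657 Pool.Agent.N657.QR

section relabel

variable {B V : Type} [Fintype B] [DecidableEq B] [Fintype V] [DecidableEq V] (e : B ≃ V)

/-- relabelling of configurations -/
def EE : (B → ℤ) ≃ (V → ℤ) where
  toFun n := fun v => n (e.symm v)
  invFun n := fun b => n (e b)
  left_inv n := by funext b; simp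
  right_inv n := by funext v; simp

/-- relabelling of wave functions -/
def TT (ψ : (V → ℤ) → ℝ) : (B → ℤ) → ℝ := fun n => ψ (EE e n)

lemma TT_surj (φ : (B → ℤ) → ℝ) : ∃ ψ, TT e ψ = φ :=
  ⟨fun n => φ ((EE e).symm n), by funext n; simp [TT]⟩

lemma nr_TT (ψ : (V → ℤ) → ℝ) : nr (TT e ψ) = nr ψ := by
  unfold nr TT
  exact (EE e).tsum_eq (fun n => ψ n ^ 2)

lemma fs_TT (ψ : (V → ℤ) → ℝ) : fs (TT e ψ) ↔ fs ψ := by
  unfold fs
  have h : Function.support (TT e ψ) = (EE e) ⁻¹' (Function.support ψ) := rfl
  rw [h]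
  constructor
  · intro hf
    have h1 : Function.support ψ = (EE e) '' ((EE e) ⁻¹' (Function.support ψ)) :=
      ((EE e).image_preimage _).symm
    rw [h1]
    exact hf.image _
  · intro hf
    exact hf.preimage ((EE e).injective.injOn)

lemma sq_EE (n : B → ℤ) : QR.sq (EE e n) = QR.sq n := by
  unfold QR.sq
  rw [← e.sum_comp]
  refine Finset.sum_congr rfl fun b _ => ?_
  show ((n (e.symm (e b)) : ℤ) : ℝ) ^ 2 = _
  rw [Equiv.symm_apply_apply]

lemma sqs_TT (ψ : (V → ℤ) → ℝ) : (∑' n, QR.sq n * TT e ψ n ^ 2) = ∑' n, QR.sq n * ψ n ^ 2 := by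
  rw [← (EE e).tsum_eq (fun n => QR.sq n * ψ n ^ 2)]
  refine tsum_congr fun n => ?_
  rw [sq_EE]
  rfl

lemma dl_EE (b : B) : EE e (dl b) = dl (e b) := by
  funext v
  obtain ⟨b', rfl⟩ := e.surjective v
  show dl b (e.symm (e b')) = dl (e b) (e b')
  rw [Equiv.symm_apply_apply]
  unfold dl
  by_cases h : b' = b
  · subst h
    simp
  · rw [Pi.single_eq_of_ne h, Pi.single_eq_of_ne (fun hh => h (e.injective hh))]

lemma EE_hp (x y : B) (n : B → ℤ) : EE e (hp x y n) = hp (e x) (e y) (EE e n) := by
  unfold hp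
  rw [← dl_EE, ← dl_EE]
  rfl

lemma EE_add (x : B) (n : B → ℤ) : EE e (n + dl x) = EE e n + dl (e x) := by
  rw [← dl_EE]
  rfl

lemma cr_TT (x y : B) (ψ : (V → ℤ) → ℝ) : cr x y (TT e ψ) = cr (e x) (e y) ψ := by
  unfold cr
  rw [← (EE e).tsum_eq (fun n => ψ (hp (e x) (e y) n) * ψ n)]
  refine tsum_congr fun n => ?_
  rw [← EE_hp]
  rfl

lemma xx_TT (x : B) (ψ : (V → ℤ) → ℝ) : xx x (TT e ψ) = xx (e x) ψ := by
  unfold xx
  rw [← (EE e).tsum_eq (fun n => ψ (n + dl (e x)) * ψ n)]
  refine tsum_congr fun n => ?_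
  rw [← EE_add]
  rfl

end relabel

section main

variable {V : Type} [Fintype V] [DecidableEq V] (r : V → V) (σ : V → Bool)

/-- the two halves as two layers -/
def ee2 (hr : ∀ x, r (r x) = x) (hσ : ∀ x, σ (r x) = !σ x) : {x : V // σ x = true} × Bool ≃ V where
  toFun p := if p.2 then r p.1 else p.1
  invFun x := if h : σ x = true then (⟨x, h⟩, false) else
    (⟨r x, by rw [hσ]; simpa using h⟩, true)
  left_inv p := by
    obtain ⟨⟨a, ha⟩, b⟩ := p
    cases b
    · simp [ha]
    · simp [hσ, ha, hr]
  right_inv x := by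
    by_cases h : σ x = true
    · simp [h]
    · simp [h, hr]

theorem main (hB : S_BAS) (h : S_RPS) : S_RPV := by
  intro V _ _ U w r σ k η E E' hr hσ hw0 hwr hws hwz h1 h2
  obtain ⟨e, he⟩ : ∃ e, e = ee2 r σ hr hσ := ⟨_, rfl⟩
  have hef : ∀ a : {x : V // σ x = true}, e (a, false) = a := by
    intro a; rw [he]; rfl
  have het : ∀ a : {x : V // σ x = true}, e (a, true) = r a := by
    intro a; rw [he]; rfl
  -- the energy
  have hkey : ∀ (k : V → ℝ) (ψ : (V → ℤ) → ℝ), HH U w k ψ =
      KK U (fun a a' : {x : V // σ x = true} => w a a') (fun a => 2 * w a (r a))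
        (fun p => k (e p)) (TT e ψ) := by
    intro k ψ
    unfold HH KK
    rw [sqs_TT]
    have e1 : ∑ x, k x * xx x ψ =
        ∑ p : {x : V // σ x = true} × Bool, k (e p) * xx p (TT e ψ) := by
      rw [← e.sum_comp]
      exact Finset.sum_congr rfl fun p _ => by rw [xx_TT]
    have e2 : ∑ x, ∑ y, w x y * cr x y ψ =
        (∑ a : {x : V // σ x = true}, ∑ a' : {x : V // σ x = true},
          w a a' * (cr (a, false) (a', false) (TT e ψ) + cr (a, true) (a', true) (TT e ψ))) +
        ∑ a : {x : V // σ x = true}, 2 * w a (r a) * cr (a, false) (a, true) (TT e ψ) := by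
      rw [← e.sum_comp]
      have e3 : ∀ p : {x : V // σ x = true} × Bool, ∑ y, w (e p) y * cr (e p) y ψ =
          ∑ q, w (e p) (e q) * cr p q (TT e ψ) := by
        intro p
        rw [← e.sum_comp]
        exact Finset.sum_congr rfl fun q _ => by rw [cr_TT]
      simp only [e3]
      simp only [Fintype.sum_prod_type, Fintype.sum_bool, hef, het, Finset.sum_add_distrib]
      have e4 : ∀ a : {x : V // σ x = true}, ∑ a' : {x : V // σ x = true},
          w (r a) a' * cr (a, true) (a', false) (TT e ψ) =
          w a (r a) * cr (a, false) (a, true) (TT e ψ) := by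
        intro a
        rw [Finset.sum_eq_single a]
        · rw [hws, hB.crcomm]
        · intro a' _ ha'
          rw [hwz, zero_mul]
          · rw [hσ, a.2, a'.2]; simp
          · intro hh
            rw [hr] at hh
            exact ha' (Subtype.ext hh)
        · intro hh
          exact absurd (Finset.mem_univ _) hh
      have e5 : ∀ a : {x : V // σ x = true}, ∑ a' : {x : V // σ x = true},
          w a (r a') * cr (a, false) (a', true) (TT e ψ) =
          w a (r a) * cr (a, false) (a, true) (TT e ψ) := by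
        intro a
        rw [Finset.sum_eq_single a]
        · intro a' _ ha'
          rw [hwz, zero_mul]
          · rw [hσ, a.2, a'.2]; simp
          · intro hh
            have := congrArg r hh
            rw [hr, hr] at this
            exact ha' (Subtype.ext this)
        · intro hh
          exact absurd (Finset.mem_univ _) hh
      have e6 : ∀ a a' : {x : V // σ x = true}, w (r a) (r a') = w a a' := fun a a' => hwr _ _
      simp only [e4, e5, e6, mul_add, Finset.sum_add_distrib]
      have e7 : ∑ a : {x : V // σ x = true}, 2 * w a (r a) * cr (a, false) (a, true) (TT e ψ) =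
          2 * ∑ a : {x : V // σ x = true}, w a (r a) * cr (a, false) (a, true) (TT e ψ) := by
        rw [Finset.mul_sum]
        exact Finset.sum_congr rfl fun a _ => by ring
      rw [e7]
      ring
    rw [e1, e2]
    ring
  have hH := h U (fun a a' : {x : V // σ x = true} => w a a') (fun a => 2 * w a (r a))
    (fun a => η a) (fun a => k a - 2 * w a (r a) * η a) (fun a => k (r a) + 2 * w a (r a) * η a)
    E E' (fun a => by have := hw0 a; positivity) (by
      intro φ hφ
      obtain ⟨ψ, rfl⟩ := TT_surj e φ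
      have h3 := h1 ψ ((fs_TT e ψ).1 hφ)
      rw [hkey] at h3
      rw [nr_TT]
      refine h3.trans (le_of_eq ?_)
      congr 1
      funext p
      obtain ⟨a, b⟩ := p
      cases b
      · rw [hef, if_pos a.2]
      · have h4 : ¬ σ (r a) = true := by rw [hσ, a.2]; simp
        rw [het, if_neg h4, hr, hws (r a) a]) (by
      intro φ hφ
      obtain ⟨ψ, rfl⟩ := TT_surj e φ
      have h3 := h2 ψ ((fs_TT e ψ).1 hφ)
      rw [hkey] at h3
      rw [nr_TT]
      refine h3.trans (le_of_eq ?_)
      congr 1
      funext p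
      obtain ⟨a, b⟩ := p
      cases b
      · rw [hef, if_pos a.2]
      · have h4 : ¬ σ (r a) = true := by rw [hσ, a.2]; simp
        rw [het, if_neg h4, hr, hws (r a) a])
  intro ψ hψ
  have h5 := hH (TT e ψ) ((fs_TT e ψ).2 hψ)
  rw [nr_TT] at h5
  have h6 : (∑ a : {x : V // σ x = true}, 2 * w a (r a) * η a ^ 2) / 2 =
      ∑ x, if σ x then w x (r x) * η x ^ 2 else 0 := by
    rw [← e.sum_comp]
    simp only [Fintype.sum_prod_type, Fintype.sum_bool, hef, het, Finset.sum_add_distrib]
    have h7 : ∀ a : {x : V // σ x = true},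
        (if σ (r a) = true then w (r a) (r (r a)) * η (r a) ^ 2 else 0) = 0 := by
      intro a
      have h4 : ¬ σ (r a) = true := by rw [hσ, a.2]; simp
      rw [if_neg h4]
    have h8 : ∀ a : {x : V // σ x = true},
        (if σ a = true then w a (r a) * η a ^ 2 else 0) = w a (r a) * η a ^ 2 := by
      intro a
      rw [if_pos a.2]
    simp only [h7, h8, Finset.sum_const_zero, zero_add]
    rw [Finset.sum_div]
    exact Finset.sum_congr rfl fun a _ => by ring
  rw [h6] at h5
  refine h5.trans (le_of_eq ?_)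
  congr 1
  rw [hkey]
  congr 1
  funext p
  obtain ⟨a, b⟩ := p
  cases b
  · rw [hef]
    simp
  · rw [het]
    simp

end main

end Pool.Agent.N8.QRRPV
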