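import Pool.Agent.N657.QL.Stm

/-!
# The weighted infrared bound for the second moment (project QL)
-/

set_option autoImplicit false

namespace Pool.Agent.N8.QLSQ

open MeasureTheory Filter Topology
open Pool.Agent.N657.QR Pool.Agent.N657.QL

section gen

variable {V : Type} [Fintype V] [DecidableEq V]

theorem integ (hT : S_TPB) {μ : Measure (V → ℝ)} [IsProbabilityMeasure μ] {R : (V → ℝ) → ℝ}
    (hR : R ∈ TP V) : Integrable R μ := by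
  obtain ⟨C, hC⟩ := hT.bdd R hR
  exact Integrable.of_bound (hT.cont R hR).aestronglyMeasurable C
    (Eventually.of_forall fun θ => by simpa [Real.norm_eq_abs] using hC θ)

theorem int3 (hT : S_TPB) {μ : Measure (V → ℝ)} [IsProbabilityMeasure μ]
    {F F0 F1 F2 : (V → ℝ) → ℝ} (h0 : F0 ∈ TP V) (h1 : F1 ∈ TP V) (h2 : F2 ∈ TP V) (κ : ℝ)
    (hF : ∀ θ, F θ = F0 θ + 2 * κ * F1 θ + κ ^ 2 * F2 θ) :
    ∫ θ, F θ ∂μ = (∫ θ, F0 θ ∂μ) + 2 * κ * (∫ θ, F1 θ ∂μ) + κ ^ 2 * ∫ θ, F2 θ ∂μ := by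
  have i0 := integ hT (μ := μ) h0
  have i1 := (integ hT (μ := μ) h1).const_mul (2 * κ)
  have i2 := (integ hT (μ := μ) h2).const_mul (κ ^ 2)
  have e : (fun θ => F θ) = fun θ => (F0 θ + 2 * κ * F1 θ) + κ ^ 2 * F2 θ := funext hF
  have i01 : Integrable (fun θ => F0 θ + 2 * κ * F1 θ) μ := i0.add i1
  rw [e, integral_add i01 i2, integral_add i0 i1, integral_const_mul, integral_const_mul]

theorem pd_smul (hT : S_TPB) {R : (V → ℝ) → ℝ} (hR : R ∈ TP V) (κ : ℝ) (x : V) (θ : V → ℝ) :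
    pd x (κ • R) θ = κ * pd x R θ :=
  ((hT.hasd R hR x θ).const_mul κ).deriv

theorem P_mem (hT : S_TPB) : (1 - r2 : (V → ℝ) → ℝ) ∈ TP V :=
  sub_mem (one_mem _) (hT.mem (0 : V → ℝ)).2.2.2.2.1

theorem pd_P (hT : S_TPB) (x : V) (θ : V → ℝ) : pd x (1 - r2) θ = -pd x r2 θ :=
  ((hT.hasd r2 (hT.mem (0 : V → ℝ)).2.2.2.2.1 x θ).const_sub 1).deriv

variable [Nonempty V]

theorem P_bd (hT : S_TPB) (θ : V → ℝ) : 0 ≤ 1 - r2 θ ∧ 1 - r2 θ ≤ 1 := by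
  obtain ⟨h0, h1, -⟩ := hT.bounds (0 : V → ℝ) θ
  constructor <;> linarith

theorem grP_bd (hT : S_TPB) (θ : V → ℝ) :
    gr (1 - r2) θ ≤ 4 / (Fintype.card V : ℝ) := by
  obtain ⟨-, -, -, -, -, h⟩ := hT.bounds (0 : V → ℝ) θ
  have e : gr (1 - r2) θ = gr r2 θ := by
    unfold gr
    refine Finset.sum_congr rfl fun x _ => ?_
    rw [pd_P hT]
    ring
  rw [e]
  have hv : (0 : ℝ) < Fintype.card V := by exact_mod_cast Fintype.card_pos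
  calc gr r2 θ ≤ 4 / (Fintype.card V : ℝ) * (1 - r2 θ) := h
    _ ≤ 4 / (Fintype.card V : ℝ) * 1 := by
        apply mul_le_mul_of_nonneg_left (P_bd hT θ).2 (by positivity)
    _ = _ := mul_one _

theorem grPX_bd (hT : S_TPB) (f : V → ℝ) (θ : V → ℝ) :
    gr ((1 - r2) * Xf f) θ ≤ 2 * (∑ x, f x ^ 2) * (1 - r2 θ) ^ 2 +
      8 / (Fintype.card V : ℝ) * Nf f θ := by
  have hv : (0 : ℝ) < Fintype.card V := by exact_mod_cast Fintype.card_pos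
  obtain ⟨m1, -⟩ := hT.mem f
  have h1 : gr ((1 - r2) * Xf f) θ ≤ 2 * (gr (1 - r2) θ * Xf f θ ^ 2) +
      2 * ((1 - r2 θ) ^ 2 * ∑ x, f x ^ 2) := by
    unfold gr
    rw [Finset.sum_mul, Finset.mul_sum, Finset.mul_sum, Finset.mul_sum, ← Finset.sum_add_distrib]
    apply Finset.sum_le_sum
    intro x _
    rw [hT.pdmul _ _ (P_mem hT) m1, (hT.pdX f x θ).1]
    have e : (1 - r2 : (V → ℝ) → ℝ) θ = 1 - r2 θ := rfl
    rw [e]
    have h2 : (1 - r2 θ) ^ 2 * (-f x * Real.sin (θ x)) ^ 2 ≤ (1 - r2 θ) ^ 2 * f x ^ 2 := by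
      apply mul_le_mul_of_nonneg_left _ (sq_nonneg _)
      have : Real.sin (θ x) ^ 2 ≤ 1 := Real.sin_sq_le_one _
      nlinarith [sq_nonneg (f x)]
    nlinarith [sq_nonneg (pd x (1 - r2) θ * Xf f θ - (1 - r2 θ) * (-f x * Real.sin (θ x)))]
  have h3 : gr (1 - r2) θ * Xf f θ ^ 2 ≤ 4 / (Fintype.card V : ℝ) * Nf f θ := by
    refine mul_le_mul (grP_bd hT θ) ?_ (sq_nonneg _) (by positivity)
    unfold Nf
    nlinarith [sq_nonneg (Yf f θ)]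
  calc gr ((1 - r2) * Xf f) θ ≤ _ := h1
    _ ≤ 2 * (4 / (Fintype.card V : ℝ) * Nf f θ) + 2 * ((1 - r2 θ) ^ 2 * ∑ x, f x ^ 2) := by
        linarith
    _ = _ := by ring

end gen

section torus

variable {d L : ℕ} [NeZero L]

/-- the trial function -/
noncomputable def Rk (f : (Fin d → ZMod L) → ℝ) (κ : ℝ) :
    ((Fin d → ZMod L) → ℝ) → ℝ := (1 - r2) + κ • ((1 - r2) * Xf f)

/-- the main inequality before the choice of the parameters -/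
theorem ineq (hT : S_TPB) {U : ℝ} {μ : Measure ((Fin d → ZMod L) → ℝ)} (hE : Env U μ) {l : ℝ}
    {f : (Fin d → ZMod L) → ℝ} (hf : ∀ x, lap f x = l * f x) (t κ : ℝ) :
    2 * t * l * κ * (∫ θ, Xf f θ ^ 2 * (1 - r2 θ) ^ 2 ∂μ) ≤
      U * ((∫ θ, gr (1 - r2) θ ∂μ) + κ ^ 2 * ∫ θ, gr ((1 - r2) * Xf f) θ ∂μ) +
      t ^ 2 * l / 2 * (∑ x, f x ^ 2) * ((∫ θ, (1 - r2 θ) ^ 2 ∂μ) +
        κ ^ 2 * ∫ θ, Xf f θ ^ 2 * (1 - r2 θ) ^ 2 ∂μ) := by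
  have := hE.prob
  obtain ⟨m1, -⟩ := hT.mem f
  have hP := P_mem (V := Fin d → ZMod L) hT
  have hPX := mul_mem hP m1
  have hR : ∀ κ : ℝ, Rk f κ ∈ TP (Fin d → ZMod L) :=
    fun κ => add_mem hP (Subalgebra.smul_mem _ hPX κ)
  have hRe : ∀ (κ : ℝ) (θ : (Fin d → ZMod L) → ℝ), Rk f κ θ =
      (1 - r2 θ) + κ * ((1 - r2 θ) * Xf f θ) := fun _ _ => rfl
  have hP2 : (fun θ : (Fin d → ZMod L) → ℝ => (1 - r2 θ) ^ 2) ∈ TP (Fin d → ZMod L) :=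
    pow_mem hP 2
  -- the three expansions
  have e1 : ∀ κ : ℝ, ∫ θ, Xf f θ * Rk f κ θ ^ 2 ∂μ =
      (∫ θ, Xf f θ * (1 - r2 θ) ^ 2 ∂μ) +
      2 * κ * (∫ θ, Xf f θ ^ 2 * (1 - r2 θ) ^ 2 ∂μ) +
      κ ^ 2 * ∫ θ, Xf f θ ^ 3 * (1 - r2 θ) ^ 2 ∂μ := by
    intro κ
    refine int3 hT (F0 := fun θ => Xf f θ * (1 - r2 θ) ^ 2)
      (F1 := fun θ => Xf f θ ^ 2 * (1 - r2 θ) ^ 2)
      (F2 := fun θ => Xf f θ ^ 3 * (1 - r2 θ) ^ 2) (mul_mem m1 hP2)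
      (mul_mem (pow_mem m1 2) hP2) (mul_mem (pow_mem m1 3) hP2) κ ?_
    intro θ
    simp only [hRe]
    ring
  have e2 : ∀ κ : ℝ, ∫ θ, Rk f κ θ ^ 2 ∂μ =
      (∫ θ, (1 - r2 θ) ^ 2 ∂μ) +
      2 * κ * (∫ θ, Xf f θ * (1 - r2 θ) ^ 2 ∂μ) +
      κ ^ 2 * ∫ θ, Xf f θ ^ 2 * (1 - r2 θ) ^ 2 ∂μ := by
    intro κ
    refine int3 hT (F0 := fun θ => (1 - r2 θ) ^ 2)
      (F1 := fun θ => Xf f θ * (1 - r2 θ) ^ 2)
      (F2 := fun θ => Xf f θ ^ 2 * (1 - r2 θ) ^ 2) hP2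
      (mul_mem m1 hP2) (mul_mem (pow_mem m1 2) hP2) κ ?_
    intro θ
    simp only [hRe]
    ring
  have e3 : ∀ κ : ℝ, ∫ θ, gr (Rk f κ) θ ∂μ =
      (∫ θ, gr (1 - r2) θ ∂μ) +
      2 * κ * (∫ θ, (∑ x, pd x (1 - r2) * pd x ((1 - r2) * Xf f)) θ ∂μ) +
      κ ^ 2 * ∫ θ, gr ((1 - r2) * Xf f) θ ∂μ := by
    intro κ
    refine int3 hT (F0 := gr (1 - r2))
      (F1 := ∑ x, pd x (1 - r2) * pd x ((1 - r2) * Xf f))
      (F2 := gr ((1 - r2) * Xf f)) (hT.grmem _ hP)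
      (sum_mem fun x _ => mul_mem (hT.pdmem _ hP x) (hT.pdmem _ hPX x)) (hT.grmem _ hPX) κ ?_
    intro θ
    unfold gr Rk
    rw [Finset.sum_apply, Finset.mul_sum, Finset.mul_sum, ← Finset.sum_add_distrib,
      ← Finset.sum_add_distrib]
    refine Finset.sum_congr rfl fun x _ => ?_
    rw [hT.pdadd _ _ hP (Subalgebra.smul_mem _ hPX κ), pd_smul hT hPX, Pi.mul_apply]
    ring
  have s1 := hE.star _ (hR κ) t l f hf
  have s2 := hE.star _ (hR (-κ)) (-t) l f hf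
  rw [e1, e2, e3] at s1 s2
  have q2 : (-t) ^ 2 = t ^ 2 := by ring
  have q3 : (-κ) ^ 2 = κ ^ 2 := by ring
  rw [q2, q3] at s2
  linarith

theorem main (hT : S_TPB) : S_SQ := by
  refine ⟨8, by norm_num, ?_⟩
  intro d L _ U l μ f hU hl hE hf _
  have := hE.prob
  obtain ⟨m1, m2, m3, m4, m5, m6, m7, m8⟩ := hT.mem f
  obtain ⟨v, hv⟩ : ∃ v : ℝ, v = (Fintype.card (Fin d → ZMod L) : ℝ) := ⟨_, rfl⟩
  have hv0 : 0 < v := by rw [hv]; exact_mod_cast Fintype.card_pos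
  obtain ⟨σ, hσ⟩ : ∃ σ : ℝ, σ = ∑ x, f x ^ 2 := ⟨_, rfl⟩
  have hσ0 : 0 ≤ σ := by rw [hσ]; exact Finset.sum_nonneg fun _ _ => sq_nonneg _
  obtain ⟨a, ha⟩ : ∃ a : ℝ, a = Real.sqrt U := ⟨_, rfl⟩
  obtain ⟨b, hb⟩ : ∃ b : ℝ, b = Real.sqrt l := ⟨_, rfl⟩
  have ha0 : 0 < a := by rw [ha]; exact Real.sqrt_pos.2 hU
  have hb0 : 0 < b := by rw [hb]; exact Real.sqrt_pos.2 hl
  have haU : U = a ^ 2 := by rw [ha]; exact (Real.sq_sqrt hU.le).symm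
  have hbl : l = b ^ 2 := by rw [hb]; exact (Real.sq_sqrt hl.le).symm
  have hA0 : 0 ≤ a2 μ := integral_nonneg fun θ => sq_nonneg _
  obtain ⟨A, hA⟩ : ∃ A : ℝ, A = a2 μ := ⟨_, rfl⟩
  obtain ⟨W, hW⟩ : ∃ W : ℝ, W = ∫ θ, Xf f θ ^ 2 * (1 - r2 θ) ^ 2 ∂μ := ⟨_, rfl⟩
  rw [← hW, ← hσ, ← ha, ← hb, ← hA, ← hv]
  rw [← hA] at hA0
  rcases hσ0.eq_or_lt with hσz | hσp
  · have hf0 : ∀ x, f x = 0 := by
      intro x
      rw [hσ] at hσz
      have h1 := (Finset.sum_eq_zero_iff_of_nonneg (fun x _ => sq_nonneg (f x))).1 hσz.symm x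
        (Finset.mem_univ x)
      exact pow_eq_zero_iff (two_ne_zero) |>.1 h1
    have h0 : ∀ θ : (Fin d → ZMod L) → ℝ, Xf f θ ^ 2 * (1 - r2 θ) ^ 2 = 0 := by
      intro θ
      have : Xf f θ = 0 := by simp [Xf, hf0]
      rw [this]; ring
    have hW0 : W = 0 := by
      rw [hW]
      simp only [h0, integral_zero]
    rw [hW0, ← hσz]
    simp
  have hN : ∫ θ, Nf f θ ∂μ ≤ a / b * σ := by
    rw [ha, hb, hσ]
    exact hE.irb l f hl hf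
  have hiN : Integrable (fun θ => Nf f θ) μ := integ hT m6
  have g0 : ∫ θ, gr (1 - r2) θ ∂μ ≤ 4 / v := by
    have h1 : ∫ θ, gr (1 - r2) θ ∂μ ≤ ∫ _θ : (Fin d → ZMod L) → ℝ, 4 / v ∂μ :=
      integral_mono_of_nonneg (Eventually.of_forall fun θ =>
        Finset.sum_nonneg fun _ _ => sq_nonneg _) (integrable_const _)
        (Eventually.of_forall fun θ => by rw [hv]; exact grP_bd hT θ)
    simpa using h1
  have hP2 : Integrable (fun θ : (Fin d → ZMod L) → ℝ => (1 - r2 θ) ^ 2) μ :=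
    integ hT (pow_mem (P_mem hT) 2)
  have g2 : ∫ θ, gr ((1 - r2) * Xf f) θ ∂μ ≤ 2 * σ * A + 8 / v * (a / b * σ) := by
    have hi1 : Integrable (fun θ : (Fin d → ZMod L) → ℝ => 2 * σ * (1 - r2 θ) ^ 2) μ :=
      hP2.const_mul _
    have hi2 : Integrable (fun θ => 8 / v * Nf f θ) μ := hiN.const_mul _
    have h1 : ∫ θ, gr ((1 - r2) * Xf f) θ ∂μ ≤
        ∫ θ, (2 * σ * (1 - r2 θ) ^ 2 + 8 / v * Nf f θ) ∂μ :=
      integral_mono_of_nonneg (Eventually.of_forall fun θ =>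
        Finset.sum_nonneg fun _ _ => sq_nonneg _) (hi1.add hi2)
        (Eventually.of_forall fun θ => by rw [hv, hσ]; exact grPX_bd hT f θ)
    rw [integral_add hi1 hi2, integral_const_mul, integral_const_mul] at h1
    have e : ∫ θ, (1 - r2 θ) ^ 2 ∂μ = A := by rw [hA]; rfl
    rw [e] at h1
    exact h1.trans (add_le_add le_rfl (mul_le_mul_of_nonneg_left hN (by positivity)))
  -- parameters
  obtain ⟨T, hTd⟩ : ∃ T : ℝ, T = a / (b * σ) := ⟨_, rfl⟩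
  obtain ⟨s, hs⟩ : ∃ s : ℝ, s = b / a := ⟨_, rfl⟩
  have hs0 : 0 < s := by rw [hs]; positivity
  have hT0 : 0 < T := by rw [hTd]; positivity
  have ht2 : Real.sqrt T * Real.sqrt T = T := Real.mul_self_sqrt hT0.le
  have h1 := ineq hT hE hf (Real.sqrt T) (Real.sqrt T * s)
  have e : ∫ θ, (1 - r2 θ) ^ 2 ∂μ = A := by rw [hA]; rfl
  rw [← hW, ← hσ, e] at h1
  have q1 : 2 * Real.sqrt T * l * (Real.sqrt T * s) = T * (2 * s * b ^ 2) := by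
    rw [hbl]
    calc _ = (Real.sqrt T * Real.sqrt T) * (2 * s * b ^ 2) := by ring
      _ = _ := by rw [ht2]
  have q2 : (Real.sqrt T * s) ^ 2 = T * s ^ 2 := by
    rw [mul_pow, pow_two (Real.sqrt T), ht2]
  have q3 : Real.sqrt T ^ 2 = T := by rw [pow_two, ht2]
  rw [q1, q2, q3, haU, hbl] at h1
  have h2 : a ^ 2 * ((∫ θ, gr (1 - r2) θ ∂μ) + T * s ^ 2 * ∫ θ, gr ((1 - r2) * Xf f) θ ∂μ) ≤
      a ^ 2 * (4 / v + T * s ^ 2 * (2 * σ * A + 8 / v * (a / b * σ))) := by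
    apply mul_le_mul_of_nonneg_left _ (sq_nonneg _)
    exact add_le_add g0 (mul_le_mul_of_nonneg_left g2 (by positivity))
  have h3 := h1.trans (add_le_add h2 le_rfl)
  have k1 : T * (2 * s * b ^ 2) * W = 2 * (b ^ 2 / σ * W) := by
    rw [hTd, hs]
    field_simp
  have k2 : a ^ 2 * (4 / v + T * s ^ 2 * (2 * σ * A + 8 / v * (a / b * σ))) =
      12 * (a ^ 2 / v) + 2 * (a * b * A) := by
    rw [hTd, hs]
    field_simp
    ring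
  have k3 : T * b ^ 2 / 2 * σ * (A + T * s ^ 2 * W) = a * b * A / 2 + b ^ 2 / σ * W / 2 := by
    rw [hTd, hs]
    field_simp
  rw [k1, k2, k3] at h3
  have h4 : b ^ 2 / σ * W ≤ 8 * (a ^ 2 / v) + 8 * (a * b * A) := by
    have : 0 ≤ a * b * A := by positivity
    linarith
  have h5 : W = σ / b ^ 2 * (b ^ 2 / σ * W) := by field_simp
  rw [h5]
  refine (mul_le_mul_of_nonneg_left h4 (by positivity)).trans (le_of_eq ?_)
  rw [haU, hbl]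
  field_simp
  ring

end torus

end Pool.Agent.N8.QLSQ
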