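import Pool.Agent.N661.BH.Stm3
import Pool.Agent.N814.BHASM

/-!
# Project FM (helper661), part FM2 (helper8): convergence of the fourth moments gives uniform
integrability
-/

set_option autoImplicit false
open MeasureTheory Filter Topology Complex ProbabilityTheory
open scoped ContDiff

namespace Pool.Agent.N8.FMFM2

open Pool.Agent.W745.RW (lap dx dy TF W)
open Pool.Agent.TH294.RS (TF.zero)
open Pool.Agent.N661.BR (MW meas_eval)
open Pool.Agent.N661.BH
open Pool.Agent.N814.BHASM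
open Pool.Agent.N814.BHM

noncomputable section

/-- the truncated fourth power -/
def gM (M x : ℝ) : ℝ := min (x ^ 4) (M ^ 4)

/-- the large fourth power -/
def hM (M x : ℝ) : ℝ := if M < |x| then x ^ 4 else 0

lemma x4 (x : ℝ) : 0 ≤ x ^ 4 := by positivity

lemma gM_cont (M : ℝ) : Continuous (gM M) := by
  unfold gM
  fun_prop

lemma gM_nonneg (M x : ℝ) : 0 ≤ gM M x := le_min (x4 x) (x4 M)

lemma gM_le (M x : ℝ) : gM M x ≤ M ^ 4 := min_le_right _ _

lemma gM_le' (M x : ℝ) : gM M x ≤ x ^ 4 := min_le_left _ _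

lemma hM_meas (M : ℝ) : Measurable (hM M) := by
  unfold hM
  refine Measurable.ite ?_ (by fun_prop) measurable_const
  exact measurableSet_lt measurable_const (by fun_prop)

lemma hM_nonneg (M x : ℝ) : 0 ≤ hM M x := by
  unfold hM
  split_ifs
  · exact x4 x
  · exact le_refl 0

lemma hM_le_pow (M x : ℝ) : hM M x ≤ x ^ 4 := by
  unfold hM
  split_ifs
  · exact le_refl _
  · exact x4 x

/-- the key inequality -/
lemma hM_le {M : ℝ} (hM0 : 0 ≤ M) (x : ℝ) : hM (2 * M) x ≤ 2 * (x ^ 4 - gM M x) := by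
  unfold hM
  split_ifs with h
  · have h1 : (2 * M) ^ 4 ≤ |x| ^ 4 := pow_le_pow_left₀ (by positivity) h.le 4
    have h2 : |x| ^ 4 = x ^ 4 := by
      rw [← abs_pow, abs_of_nonneg (x4 x)]
    rw [h2] at h1
    have h3 := gM_le M x
    have h4 : (2 * M) ^ 4 = 16 * M ^ 4 := by ring
    have h5 := x4 x
    linarith
  · have := gM_le' M x
    linarith

lemma lim_gM {X : Type*} [MeasurableSpace X] {μ : Measure X} [IsProbabilityMeasure μ] {F : X → ℝ}
    (hF : Measurable F) (h3 : ∫⁻ x, ENNReal.ofReal (F x ^ 4) ∂μ = 3) {δ : ℝ} (hδ : 0 < δ) :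
    ∃ M : ℝ, 0 ≤ M ∧ 3 - δ ≤ ∫ x, gM M (F x) ∂μ := by
  have hint : Integrable (fun x => F x ^ 4) μ := by
    refine ⟨(hF.pow_const 4).aestronglyMeasurable, ?_⟩
    rw [hasFiniteIntegral_iff_ofReal (Eventually.of_forall fun x => x4 _), h3]
    norm_num
  have h4 : ∫ x, F x ^ 4 ∂μ = 3 := by
    rw [integral_eq_lintegral_of_nonneg_ae (Eventually.of_forall fun x => x4 _)
      (hF.pow_const 4).aestronglyMeasurable, h3]
    norm_num
  have hlim : Tendsto (fun n : ℕ => ∫ x, gM n (F x) ∂μ) atTop (𝓝 (∫ x, F x ^ 4 ∂μ)) := by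
    refine tendsto_integral_of_dominated_convergence (fun x => F x ^ 4) (fun n => ?_) hint
      (fun n => Eventually.of_forall fun x => ?_) (Eventually.of_forall fun x => ?_)
    · exact ((gM_cont n).measurable.comp hF).aestronglyMeasurable
    · rw [Real.norm_eq_abs, abs_of_nonneg (gM_nonneg _ _)]
      exact gM_le' _ _
    · refine tendsto_const_nhds.congr' ?_
      filter_upwards [eventually_ge_atTop ⌈|F x|⌉₊] with n hn
      unfold gM
      rw [min_eq_left]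
      have h1 : |F x| ≤ n := (Nat.le_ceil _).trans (by exact_mod_cast hn)
      calc F x ^ 4 = |F x| ^ 4 := by rw [← abs_pow, abs_of_nonneg (x4 _)]
        _ ≤ (n : ℝ) ^ 4 := pow_le_pow_left₀ (abs_nonneg _) h1 4
  rw [h4] at hlim
  obtain ⟨n, hn⟩ := (hlim.eventually (lt_mem_nhds (show 3 - δ < 3 by linarith))).exists
  exact ⟨n, Nat.cast_nonneg _, hn.le⟩

/-- the weighted estimate -/
lemma core {Z : Type*} [MeasurableSpace Z] {P : Measure Z} [IsProbabilityMeasure P]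
    {u : ℕ → Z → ℝ} (hu : ∀ n, AEMeasurable (u n) P)
    {a M δ : ℝ} (hM0 : 0 ≤ M) (hδ : 0 < δ) (ha : 3 - δ ≤ a)
    (hlaw : Tendsto (fun n => ∫ z, gM M (u n z) ∂P) atTop (𝓝 a))
    {ψ : Z → ℝ} (hψ : Measurable ψ) (hψ0 : ∀ z, 0 ≤ ψ z) (hψ1 : ∀ z, ψ z ≤ 1)
    (hψI : M ^ 4 * (1 - ∫ z, ψ z ∂P) ≤ δ)
    (hint : ∀ n, Integrable (fun z => ψ z * u n z ^ 4) P)
    (h4 : Tendsto (fun n => ∫ z, ψ z * u n z ^ 4 ∂P) atTop (𝓝 (3 * ∫ z, ψ z ∂P))) :
    ∀ᶠ n in atTop, ∫ z, ψ z * hM (2 * M) (u n z) ∂P ≤ 8 * δ := by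
  have hψi : Integrable ψ P := Integrable.of_bound hψ.aestronglyMeasurable 1
    (Eventually.of_forall fun z => by rw [Real.norm_eq_abs, abs_of_nonneg (hψ0 z)]; exact hψ1 z)
  have hψle : ∫ z, ψ z ∂P ≤ 1 := by
    have h1 : ∫ _ : Z, (1 : ℝ) ∂P = 1 := by simp
    rw [← h1]
    exact integral_mono hψi (integrable_const _) hψ1
  have hgi : ∀ n, Integrable (fun z => gM M (u n z)) P := fun n =>
    Integrable.of_bound ((gM_cont M).measurable.comp_aemeasurable (hu n)).aestronglyMeasurable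
      (M ^ 4) (Eventually.of_forall fun z => by
        rw [Real.norm_eq_abs, abs_of_nonneg (gM_nonneg _ _)]; exact gM_le _ _)
  have hψg : ∀ n, Integrable (fun z => ψ z * gM M (u n z)) P := fun n =>
    Integrable.of_bound (hψ.aestronglyMeasurable.mul
      ((gM_cont M).measurable.comp_aemeasurable (hu n)).aestronglyMeasurable)
      (M ^ 4) (Eventually.of_forall fun z => by
        rw [Real.norm_eq_abs, abs_of_nonneg (mul_nonneg (hψ0 z) (gM_nonneg _ _))]
        calc ψ z * gM M (u n z) ≤ 1 * M ^ 4 :=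
              mul_le_mul (hψ1 z) (gM_le _ _) (gM_nonneg _ _) zero_le_one
          _ = M ^ 4 := one_mul _)
  have hψh : ∀ n, Integrable (fun z => ψ z * hM (2 * M) (u n z)) P := fun n => by
    refine (hint n).mono (hψ.aestronglyMeasurable.mul
      ((hM_meas _).comp_aemeasurable (hu n)).aestronglyMeasurable)
      (Eventually.of_forall fun z => ?_)
    rw [Real.norm_eq_abs, Real.norm_eq_abs, abs_of_nonneg (mul_nonneg (hψ0 z) (hM_nonneg _ _)),
      abs_of_nonneg (mul_nonneg (hψ0 z) (x4 _))]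
    exact mul_le_mul_of_nonneg_left (hM_le_pow _ _) (hψ0 z)
  have e1 : ∀ᶠ n in atTop, a - δ ≤ ∫ z, gM M (u n z) ∂P := by
    filter_upwards [hlaw.eventually (lt_mem_nhds (show a - δ < a by linarith))] with n hn
    exact hn.le
  have e2 : ∀ᶠ n in atTop, ∫ z, ψ z * u n z ^ 4 ∂P ≤ 3 * (∫ z, ψ z ∂P) + δ := by
    filter_upwards [h4.eventually (gt_mem_nhds (show 3 * (∫ z, ψ z ∂P) <
      3 * (∫ z, ψ z ∂P) + δ by linarith))] with n hn
    exact hn.le
  filter_upwards [e1, e2] with n hn1 hn2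
  have h5 : ∫ z, gM M (u n z) ∂P - M ^ 4 * (1 - ∫ z, ψ z ∂P) ≤
      ∫ z, ψ z * gM M (u n z) ∂P := by
    have h6 : M ^ 4 * (1 - ∫ z, ψ z ∂P) = ∫ z, M ^ 4 * (1 - ψ z) ∂P := by
      rw [integral_const_mul, integral_sub (integrable_const _) hψi]
      simp
    have hdi : Integrable (fun z => M ^ 4 * (1 - ψ z)) P :=
      ((integrable_const (1 : ℝ)).sub hψi).const_mul _
    rw [h6, ← integral_sub (hgi n) hdi]
    refine integral_mono ((hgi n).sub hdi) (hψg n) fun z => ?_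
    have h7 : gM M (u n z) * (1 - ψ z) ≤ M ^ 4 * (1 - ψ z) :=
      mul_le_mul_of_nonneg_right (gM_le _ _) (by linarith [hψ1 z])
    show gM M (u n z) - M ^ 4 * (1 - ψ z) ≤ ψ z * gM M (u n z)
    linarith
  have h8 : ∫ z, ψ z * hM (2 * M) (u n z) ∂P ≤
      2 * (∫ z, ψ z * u n z ^ 4 ∂P - ∫ z, ψ z * gM M (u n z) ∂P) := by
    rw [← integral_sub (hint n) (hψg n), ← integral_const_mul]
    refine integral_mono (hψh n) (((hint n).sub (hψg n)).const_mul _) fun z => ?_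
    have h9 := mul_le_mul_of_nonneg_left (hM_le hM0 (u n z)) (hψ0 z)
    show ψ z * hM (2 * M) (u n z) ≤ 2 * (ψ z * u n z ^ 4 - ψ z * gM M (u n z))
    linarith
  linarith

variable {Ω : Set ℂ} {lam : ℕ → ℝ} {u : ℕ → ℂ → ℝ}

lemma ac (Ω : Set ℂ) : Pz Ω ≪ volume.restrict Ω :=
  (Measure.smul_absolutelyContinuous).trans (withDensity_absolutelyContinuous _ _)

lemma aemeas (H : Hyp Ω lam u) (n : ℕ) : AEMeasurable (u n) (Pz Ω) := by
  have h1 : AEMeasurable (u n) (volume.restrict Ω) :=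
    (((H.sm n).continuousOn).mono H.sub).aemeasurable H.op.measurableSet
  exact h1.mono_ac (ac Ω)

lemma intPz_law (H : Hyp Ω lam u) (g : ℝ → ℝ) (n : ℕ) :
    (∫ z in Ω, g (u n z) / z.im ^ 2) / ∫ z in Ω, 1 / z.im ^ 2 = ∫ z, g (u n z) ∂(Pz Ω) := by
  rw [int_Pz (mpos H), smul_eq_mul, div_eq_inv_mul]
  unfold mass
  congr 1
  refine integral_congr_ae (Eventually.of_forall fun z => ?_)
  show g (u n z) / z.im ^ 2 = (1 / z.im ^ 2) • g (u n z)
  rw [smul_eq_mul]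
  ring

lemma int_wt (H : Hyp Ω lam u) {φ : ℂ → ℝ} (hφ : TF Ω φ) (g : ℂ → ℝ) :
    ∫ z, φ z * g z / z.im ^ 2 = mass Ω * ∫ z, φ z * g z ∂(Pz Ω) := by
  rw [conv H hφ, ← mul_assoc, mul_inv_cancel₀ (mpos H).ne', one_mul]
  refine integral_congr_ae (Eventually.of_forall fun z => ?_)
  show φ z * g z / z.im ^ 2 = wt φ z * g z
  unfold wt
  rw [div_eq_mul_inv]
  ring

lemma int_wt1 (H : Hyp Ω lam u) {φ : ℂ → ℝ} (hφ : TF Ω φ) :
    ∫ z, φ z / z.im ^ 2 = mass Ω * ∫ z, φ z ∂(Pz Ω) := by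
  have := int_wt H hφ (fun _ => 1)
  simpa only [mul_one] using this

/-- a cut-off function with almost full mass, equal to one on a given compact set -/
lemma exists_cut (H : Hyp Ω lam u) {K : Set ℂ} (hK : IsCompact K) (hKΩ : K ⊆ Ω) {η : ℝ}
    (hη : 0 < η) : ∃ ψ : ℂ → ℝ, TF Ω ψ ∧ (∀ z, 0 ≤ ψ z) ∧ (∀ z, ψ z ≤ 1) ∧ (∀ z ∈ K, ψ z = 1) ∧
      1 - ∫ z, ψ z ∂(Pz Ω) ≤ η := by
  have := probz H
  have hΩ1 : Pz Ω Ω = 1 := by
    have h := ae_Pz H.op.measurableSet (Ω := Ω)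
    rwa [← prob_compl_eq_zero_iff H.op.measurableSet, ← mem_ae_iff]
  obtain ⟨L, hLΩ, hL, hlt⟩ := H.op.measurableSet.exists_isCompact_lt_add
    (μ := Pz Ω) (measure_ne_top _ _) (ε := ENNReal.ofReal η) (by simpa using hη)
  obtain ⟨ψ, h1, h2, h3, h4⟩ := Pool.Agent.Y265.RW.cutoff H.op (hK.union hL)
    (Set.union_subset hKΩ hLΩ)
  refine ⟨ψ, h1, h2, h3, fun z hz => h4 z (Or.inl hz), ?_⟩
  have e1 : (1:ℝ) ≤ (Pz Ω).real L + η := by
    rw [hΩ1] at hlt
    have := ENNReal.toReal_mono (by simp) hlt.le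
    rwa [ENNReal.toReal_add (measure_ne_top _ _) ENNReal.ofReal_ne_top,
      ENNReal.toReal_ofReal hη.le, ENNReal.toReal_one] at this
  have e2 : (Pz Ω).real L ≤ ∫ z, ψ z ∂(Pz Ω) := by
    have h5 : (Pz Ω).real L = ∫ z in L, (1 : ℝ) ∂(Pz Ω) := by simp
    rw [h5, ← integral_indicator hL.measurableSet]
    refine integral_mono ?_ ?_ fun z => ?_
    · exact (integrable_const (1 : ℝ)).indicator hL.measurableSet
    · exact Integrable.of_bound h1.1.continuous.measurable.aestronglyMeasurable 1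
        (Eventually.of_forall fun z => by
          rw [Real.norm_eq_abs, abs_of_nonneg (h2 z)]; exact h3 z)
    · by_cases hz : z ∈ L
      · simp [hz, h4 z (Or.inr hz)]
      · simpa [hz] using h2 z
  linarith

lemma int_pow (H : Hyp Ω lam u) {ψ : ℂ → ℝ} (hψ : TF Ω ψ) (n : ℕ) :
    Integrable (fun z => ψ z * u n z ^ 4) (Pz Ω) := by
  have := probz H
  have hc : ContinuousOn (fun z => ψ z * u n z ^ 4) (tsupport ψ) :=
    hψ.1.continuous.continuousOn.mul
      (((H.sm n).continuousOn.mono (hψ.2.2.trans H.sub)).pow 4)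
  obtain ⟨C, hC⟩ := hψ.2.1.exists_bound_of_continuousOn hc
  refine Integrable.of_bound (hψ.1.continuous.measurable.aestronglyMeasurable.mul
    ((aemeas H n).pow_const 4).aestronglyMeasurable) (max C 0)
    (Eventually.of_forall fun z => ?_)
  by_cases hz : z ∈ tsupport ψ
  · exact (hC z hz).trans (le_max_left _ _)
  · rw [image_eq_zero_of_notMem_tsupport hz, zero_mul, norm_zero]
    exact le_max_right _ _

theorem FM2 : S_FM2 := by
  intro Ω lam u H μ hμ hlaw h4 h3 φ hφ hφ0 ε hε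
  have := probz H
  have hm := mpos H
  -- a bound for the weight
  obtain ⟨B, hB⟩ := hφ.2.1.exists_bound_of_continuousOn hφ.1.continuous.continuousOn
  set B' := max B 1 with hB'
  have hB0 : 0 < B' := lt_of_lt_of_le one_pos (le_max_right _ _)
  obtain ⟨δ, hδ, hδε⟩ : ∃ δ : ℝ, 0 < δ ∧ mass Ω * (B' * (8 * δ)) ≤ ε := by
    refine ⟨ε / (8 * B' * mass Ω), by positivity, le_of_eq ?_⟩
    field_simp
  obtain ⟨M, hM0, hMδ⟩ := lim_gM (meas_eval 0) h3 hδ
  obtain ⟨ψ, hψ, hψ0, hψ1, hψK, hψI⟩ := exists_cut H hφ.2.1 hφ.2.2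
    (η := δ / (M ^ 4 + 1)) (by positivity)
  have hψI' : M ^ 4 * (1 - ∫ z, ψ z ∂(Pz Ω)) ≤ δ := by
    have h5 : M ^ 4 * (1 - ∫ z, ψ z ∂(Pz Ω)) ≤ M ^ 4 * (δ / (M ^ 4 + 1)) :=
      mul_le_mul_of_nonneg_left hψI (x4 M)
    refine h5.trans ?_
    rw [mul_div_assoc', div_le_iff₀ (by positivity)]
    have := x4 M
    nlinarith
  have hl : Tendsto (fun n => ∫ z, gM M (u n z) ∂(Pz Ω)) atTop (𝓝 (∫ f : MW, gM M (f 0) ∂μ)) := by
    refine (hlaw (gM M) (gM_cont M) ⟨M ^ 4, fun x => ?_⟩).congr fun n => intPz_law H _ n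
    rw [abs_of_nonneg (gM_nonneg _ _)]
    exact gM_le _ _
  have hq : Tendsto (fun n => ∫ z, ψ z * u n z ^ 4 ∂(Pz Ω)) atTop
      (𝓝 (3 * ∫ z, ψ z ∂(Pz Ω))) := by
    have h5 := (h4 ψ hψ).const_mul (mass Ω)⁻¹
    rw [int_wt1 H hψ] at h5
    have e : (mass Ω)⁻¹ * (3 * (mass Ω * ∫ z, ψ z ∂(Pz Ω))) = 3 * ∫ z, ψ z ∂(Pz Ω) := by
      field_simp
    rw [e] at h5
    refine h5.congr fun n => ?_
    rw [int_wt H hψ, ← mul_assoc, inv_mul_cancel₀ hm.ne', one_mul]
  have hcore := core (aemeas H) hM0 hδ hMδ hl hψ.1.continuous.measurable hψ0 hψ1 hψI'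
    (int_pow H hψ) hq
  refine ⟨2 * M, ?_⟩
  filter_upwards [hcore] with n hn
  change ∫ z, φ z * hM (2 * M) (u n z) / z.im ^ 2 ≤ ε
  rw [int_wt H hφ]
  refine le_trans (mul_le_mul_of_nonneg_left ?_ hm.le) hδε
  refine le_trans ?_ (mul_le_mul_of_nonneg_left hn hB0.le)
  rw [← integral_const_mul]
  have hi : Integrable (fun z => ψ z * hM (2 * M) (u n z)) (Pz Ω) := by
    refine (int_pow H hψ n).mono (hψ.1.continuous.measurable.aestronglyMeasurable.mul
      ((hM_meas _).comp_aemeasurable (aemeas H n)).aestronglyMeasurable)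
      (Eventually.of_forall fun z => ?_)
    rw [Real.norm_eq_abs, Real.norm_eq_abs, abs_of_nonneg (mul_nonneg (hψ0 z) (hM_nonneg _ _)),
      abs_of_nonneg (mul_nonneg (hψ0 z) (x4 _))]
    exact mul_le_mul_of_nonneg_left (hM_le_pow _ _) (hψ0 z)
  refine integral_mono_of_nonneg (Eventually.of_forall fun z =>
    mul_nonneg (hφ0 z) (hM_nonneg _ _)) (hi.const_mul _) (Eventually.of_forall fun z => ?_)
  show φ z * hM (2 * M) (u n z) ≤ B' * (ψ z * hM (2 * M) (u n z))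
  rw [← mul_assoc]
  refine mul_le_mul_of_nonneg_right ?_ (hM_nonneg _ _)
  by_cases hz : z ∈ tsupport φ
  · rw [hψK z hz, mul_one]
    have := hB z hz
    rw [Real.norm_eq_abs] at this
    exact (le_abs_self _).trans (this.trans (le_max_left _ _))
  · rw [image_eq_zero_of_notMem_tsupport hz]
    exact mul_nonneg hB0.le (hψ0 z)

end

end Pool.Agent.N8.FMFM2
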