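import Pool.Agent.N795.BV.Stm

/-!
# Project BV, step GL: the theorem of Gauss and Lucas for discs about the origin
-/

set_option autoImplicit false

open Polynomial

namespace Pool.Agent.N795.BV

/-- Gauss-Lucas for discs about the origin -/
theorem gl : S_GL := by
  intro m z w B h hz i
  have hmon : (∏ k, (X - C (z k)) : ℂ[X]).Monic :=
    monic_prod_of_monic _ _ (fun k _ => monic_X_sub_C (z k))
  have hnat : (∏ k, (X - C (z k)) : ℂ[X]).natDegree = m + 1 := by
    rw [natDegree_prod_of_monic _ _ (fun k _ => monic_X_sub_C (z k))]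
    simp
  have hdeg : 0 < (∏ k, (X - C (z k)) : ℂ[X]).degree := by
    rw [degree_eq_natDegree hmon.ne_zero, hnat]
    exact_mod_cast Nat.succ_pos m
  have hmon' : (∏ i, (X - C (w i)) : ℂ[X]).Monic :=
    monic_prod_of_monic _ _ (fun k _ => monic_X_sub_C (w k))
  have hm0 : ((m : ℂ) + 1) ≠ 0 := by exact_mod_cast Nat.succ_ne_zero m
  have hw : w i ∈ (∏ k, (X - C (z k)) : ℂ[X]).derivative.rootSet ℂ := by
    rw [mem_rootSet, h]
    refine ⟨mul_ne_zero (C_ne_zero.2 hm0) hmon'.ne_zero, ?_⟩
    rw [coe_aeval_eq_eval, eval_mul, eval_prod, Finset.prod_eq_zero (Finset.mem_univ i), mul_zero]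
    simp
  have h1 := rootSet_derivative_subset_convexHull_rootSet hdeg hw
  have h2 : (∏ k, (X - C (z k)) : ℂ[X]).rootSet ℂ ⊆ Metric.closedBall 0 B := by
    intro x hx
    rw [mem_rootSet, coe_aeval_eq_eval, eval_prod] at hx
    obtain ⟨k, -, hk⟩ := Finset.prod_eq_zero_iff.1 hx.2
    rw [eval_sub, eval_X, eval_C, sub_eq_zero] at hk
    rw [hk, mem_closedBall_zero_iff]
    exact hz k
  have h3 := convexHull_min h2 (convex_closedBall 0 B) h1
  rwa [mem_closedBall_zero_iff] at h3

end Pool.Agent.N795.BV
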